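import Pool.Agent.J4H92.CM.Stm

/-!
# (ZET), (ZES), (CNJ), (SUM) of project CM
-/

set_option autoImplicit false

namespace Pool.Agent.J4H62.CM

open Filter Topology Asymptotics MeasureTheory
open scoped ComplexConjugate ComplexOrder

open Pool.Agent.J4H92.CM

theorem t_ZET : S_ZET := by
  unfold S_ZET
  have h := (Complex.differentiableOn_compl_singleton_and_continuousAt_iff (f := A)
    (s := Set.univ) (c := (0 : ℂ)) univ_mem).1 ?_
  · exact fun s => (h s (Set.mem_univ s)).differentiableAt univ_mem
  refine ⟨fun s hs => ?_, ?_⟩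
  · have hs0 : s ≠ 0 := hs.2
    have h1 : (fun s : ℂ => s * riemannZeta (s + 1)) =ᶠ[𝓝 s] A := by
      filter_upwards [isOpen_ne.mem_nhds hs0] with z hz
      rw [A, Function.update_of_ne hz]
    refine (DifferentiableAt.congr_of_eventuallyEq ?_ h1.symm).differentiableWithinAt
    refine differentiableAt_id.mul ?_
    have h2 : DifferentiableAt ℂ riemannZeta (s + 1) :=
      differentiableAt_riemannZeta (by simpa using hs0)
    exact h2.comp s (differentiableAt_id.add_const 1)
  · rw [A, continuousAt_update_same]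
    have h1 := riemannZeta_residue_one
    have h2 : Tendsto (fun s : ℂ => s + 1) (𝓝[≠] 0) (𝓝[≠] 1) := by
      refine tendsto_nhdsWithin_iff.2 ⟨?_, ?_⟩
      · have : Tendsto (fun s : ℂ => s + 1) (𝓝 0) (𝓝 (0 + 1)) :=
          (continuous_id.add continuous_const).tendsto 0
        rw [zero_add] at this
        exact this.mono_left nhdsWithin_le_nhds
      · filter_upwards [self_mem_nhdsWithin] with s hs
        simpa using hs
    have h3 := h1.comp h2
    refine h3.congr fun s => ?_
    simp

theorem t_ZES : S_ZES := by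
  intro s hs
  have h0 : 1 < (s + 1).re := by simp; linarith
  rw [zeta_eq_tsum_one_div_nat_cpow h0, LSeries]
  refine tsum_congr fun n => ?_
  rw [LSeries.term_def]
  split_ifs with hn
  · subst hn
    have : s + 1 ≠ 0 := by
      intro h
      rw [h] at h0
      simp at h0
      linarith
    rw [Nat.cast_zero, Complex.zero_cpow this, div_zero]
  · have hn' : (n : ℂ) ≠ 0 := by exact_mod_cast hn
    rw [u, Complex.cpow_add _ _ hn', Complex.cpow_one]
    field_simp

theorem t_CNJ : S_CNJ := by
  intro f s
  unfold m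
  rw [← integral_conj]
  refine setIntegral_congr_fun measurableSet_Ioi fun t ht => ?_
  have ht0 : (0 : ℝ) < t := lt_trans one_pos ht
  have h1 : S (fun n => conj (f n)) ⌊t⌋₊ = conj (S f ⌊t⌋₊) := by
    unfold S
    rw [map_sum]
  have h2 : conj ((t : ℂ) ^ (-(conj s + 1))) = (t : ℂ) ^ (-(s + 1)) := by
    have harg : ((t : ℂ)).arg ≠ Real.pi := by
      rw [Complex.arg_ofReal_of_nonneg ht0.le]
      exact Real.pi_pos.ne
    have h3 := Complex.cpow_conj (t : ℂ) (-(conj s + 1)) harg
    rw [Complex.conj_ofReal] at h3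
    rw [← h3]
    congr 1
    simp
  simp only [map_mul, h1, h2]

theorem t_SUM : S_SUM := by
  intro f B C hB hC s hs
  have h1 : LSeriesSummable f s :=
    LSeriesSummable_of_bounded_of_one_lt_re (m := B) (fun n _ => hB n) hs
  refine ⟨h1, ?_⟩
  have hO : (fun n : ℕ => ∑ k ∈ Finset.Icc 1 n, f k) =O[atTop] fun n : ℕ => (n : ℝ) ^ (0 : ℝ) := by
    refine IsBigO.of_bound (|C|) ?_
    filter_upwards [eventually_gt_atTop 0] with n hn
    rw [Real.rpow_zero, norm_one, mul_one]
    refine (hC n hn).trans ?_
    have h2 : (1 : ℝ) ≤ Real.sqrt n := by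
      rw [Real.one_le_sqrt]
      exact_mod_cast hn
    refine (div_le_div_of_nonneg_right (le_abs_self C) (by positivity)).trans ?_
    exact div_le_self (abs_nonneg _) h2
  rw [LSeries_eq_mul_integral f le_rfl (by linarith) h1 hO]
  rfl

end Pool.Agent.J4H62.CM
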